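import Mathlib

set_option autoImplicit false

namespace Pool.Agent.Results.MP_9b97c3_lc.Counter

/-- The `G`-jump of a relation `E` on `X`. -/
def jump {X : Type} (E : X → X → Prop) (G : Type) [Group G] (α β : G → X) : Prop :=
  ∃ g : G, ∀ h : G, E (α (g⁻¹ * h)) (β h)

/-- Borel reducibility. -/
def BorelRed {X Y : Type} [TopologicalSpace X] [TopologicalSpace Y] (E : X → X → Prop)
    (F : Y → Y → Prop) : Prop :=
  ∃ f : X → Y, @Measurable X Y (borel X) (borel Y) f ∧ ∀ x x', E x x' ↔ F (f x) (f x')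

abbrev C2 : Type := Multiplicative (ZMod 2)

theorem two (x : C2) : x = 1 ∨ x = Multiplicative.ofAdd 1 := by revert x; decide

theorem jump_two {X Y : Type} (E : X → X → Prop) (π : X → Y) (h : ∀ a b, E a b ↔ π a = π b)
    (α β : C2 → X) : jump E C2 α β ↔ s(π (α 1), π (α (Multiplicative.ofAdd 1))) =
      s(π (β 1), π (β (Multiplicative.ofAdd 1))) := by
  have e1 : ∀ p : C2 → Prop, (∀ x, p x) ↔ p 1 ∧ p (Multiplicative.ofAdd 1) := fun p =>
    ⟨fun h => ⟨h _, h _⟩, fun h x => by rcases two x with rfl | rfl; exacts [h.1, h.2]⟩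
  have e2 : ∀ p : C2 → Prop, (∃ x, p x) ↔ p 1 ∨ p (Multiplicative.ofAdd 1) := fun p =>
    ⟨fun ⟨x, h⟩ => by rcases two x with rfl | rfl; exacts [Or.inl h, Or.inr h],
      fun h => h.elim (fun h => ⟨_, h⟩) fun h => ⟨_, h⟩⟩
  have e3 : (Multiplicative.ofAdd 1 : C2)⁻¹ = Multiplicative.ofAdd 1 := by decide
  simp only [jump, e1, e2, h, inv_one, one_mul, mul_one, e3, Sym2.eq_iff]
  rw [show (Multiplicative.ofAdd 1 : C2) * Multiplicative.ofAdd 1 = 1 by decide]
  tauto

theorem sym_surj {X Y : Type} (π : X → Y) (h : Function.Surjective π) :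
    Function.Surjective fun α : C2 → X => s(π (α 1), π (α (Multiplicative.ofAdd 1))) := by
  intro z
  induction z with
  | _ a b =>
  obtain ⟨a, rfl⟩ := h a
  obtain ⟨b, rfl⟩ := h b
  exact ⟨fun x => if x = 1 then a else b, by simp⟩

theorem result : ∃ (G H : Type) (_ : Group G) (_ : Group H) (X : Type) (_ : TopologicalSpace X)
    (E : X → X → Prop), Countable G ∧ Countable H ∧ PolishSpace X ∧ Equivalence E ∧
    ∀ (K : Type) [Group K], Countable K →
      ¬ (BorelRed (jump (jump E G) H) (jump E K) ∧ BorelRed (jump E K) (jump (jump E G) H)) := by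
  classical
  refine ⟨C2, C2, inferInstance, inferInstance, Fin 10, inferInstance, Eq, inferInstance,
    inferInstance, inferInstance, eq_equivalence, fun K _ _ => ?_⟩
  rintro ⟨⟨f, -, hf⟩, ⟨g, -, hg⟩⟩
  let π := fun α : C2 → C2 → Fin 10 => s(s(α 1 1, α 1 (Multiplicative.ofAdd 1)),
    s(α (Multiplicative.ofAdd 1) 1, α (Multiplicative.ofAdd 1) (Multiplicative.ofAdd 1)))
  have h1 : ∀ α β, jump (jump Eq C2) C2 α β ↔ π α = π β :=
    jump_two _ _ (jump_two Eq id fun _ _ => Iff.rfl)
  have h2 : Function.Surjective π := sym_surj _ (sym_surj id Function.surjective_id)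
  have hc : Fintype.card (Sym2 (Sym2 (Fin 10))) = 1540 := by
    rw [Sym2.card, Sym2.card, Fintype.card_fin]; decide +kernel
  have h3 : ∀ α β : K → Fin 10, π (g α) = π (g β) ↔ ∃ k : K, ∀ h, α (k⁻¹ * h) = β h :=
    fun α β => ((hg α β).trans (h1 _ _)).symm
  have h4 : ∀ y, ∃ α : K → Fin 10, ∀ β, π (g β) = y → ∃ k : K, β = fun h => α (k⁻¹ * h) := by
    intro y
    by_cases h : ∃ α, π (g α) = y
    · obtain ⟨α, rfl⟩ := h
      exact ⟨α, fun β e => ((h3 α β).1 e.symm).imp fun k hk => funext fun h => (hk h).symm⟩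
    · exact ⟨fun _ => 0, fun β e => absurd ⟨β, e⟩ h⟩
  choose a ha using h4
  have h5 : Function.Surjective fun p : Sym2 (Sym2 (Fin 10)) × K => fun h => a p.1 (p.2⁻¹ * h) :=
    fun β => (ha _ β rfl).elim fun k hk => ⟨(_, k), hk.symm⟩
  cases finite_or_infinite K
  · have := Fintype.ofFinite K
    have b1 := Fintype.card_le_of_surjective _ h5
    have b2 := Fintype.card_le_of_injective (fun y => f (Function.surjInv h2 y)) fun y z e => by
      have := (h1 _ _).1 ((hf _ _).2 ⟨1, fun h => by simpa using congrFun e h⟩)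
      rwa [Function.surjInv_eq h2, Function.surjInv_eq h2] at this
    simp only [Fintype.card_pi, Fintype.card_fin, Finset.prod_const, Finset.card_univ,
      Fintype.card_prod, hc] at b1 b2
    generalize Fintype.card K = n at b1 b2
    have b3 : 4 ≤ n := by
      by_contra h
      have := Nat.pow_le_pow_right (show 0 < 10 by norm_num) (show n ≤ 3 by omega)
      omega
    have b4 : 1540 * n < 10 ^ n := by
      clear b1 b2
      induction n, b3 using Nat.le_induction with
      | base => norm_num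
      | succ n hn ih => rw [pow_succ]; omega
    omega
  · have := Cardinal.mk_le_aleph0_iff.2 h5.countable
    rw [← Cardinal.power_def, Cardinal.mk_eq_aleph0 K, Cardinal.mk_fin,
      Cardinal.nat_power_aleph0 (by norm_num)] at this
    exact absurd this (not_le.2 Cardinal.aleph0_lt_continuum)

end Pool.Agent.Results.MP_9b97c3_lc.Counter
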